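import Mathlib

namespace Pool.Agent.H.MP_012ca0_co
open Finset

variable {ι V : Type} [DecidableEq ι] [DecidableEq V]

def bv (e : V × V) : V → ℤ := fun x => (if e.1 = x then 1 else 0) - (if e.2 = x then 1 else 0)

def D (b : ι → V → ℤ) (E F : Finset ι) : V → ℤ := ∑ e ∈ E, if e ∈ F then b e else - b e

def T (b : ι → V → ℤ) (E : Finset ι) (φ : (V → ℤ) → ℕ) : ℕ := ∑ F ∈ E.powerset, φ (D b E F)

omit [DecidableEq V] in
lemma T_empty (b : ι → V → ℤ) (φ : (V → ℤ) → ℕ) : T b ∅ φ = φ 0 := by simp [T, D]

omit [DecidableEq V] in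
lemma T_insert (b : ι → V → ℤ) {E : Finset ι} {e : ι} (he : e ∉ E) (φ : (V → ℤ) → ℕ) :
    T b (insert e E) φ = T b E (fun x => φ (x - b e)) + T b E (fun x => φ (x + b e)) := by
  unfold T
  rw [sum_powerset_insert he]
  congr 1
  · refine sum_congr rfl fun F hF => ?_
    have : e ∉ F := fun h => he (mem_powerset.1 hF h)
    rw [D, sum_insert he, if_neg this, D]
    congr 1; abel
  · refine sum_congr rfl fun F _ => ?_
    rw [D, sum_insert he, if_pos (mem_insert_self _ _), D, add_comm]
    congr 2
    refine sum_congr rfl fun x hx => ?_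
    have : x ≠ e := fun h => he (h ▸ hx)
    simp [this]

omit [DecidableEq V] in
lemma T_add (b : ι → V → ℤ) (E : Finset ι) (φ ψ : (V → ℤ) → ℕ) :
    T b E (fun x => φ x + ψ x) = T b E φ + T b E ψ := by simp [T, sum_add_distrib]

omit [DecidableEq V] in
lemma T_union (b : ι → V → ℤ) (E : Finset ι) (C : Finset ι) : Disjoint C E →
    ∀ φ : (V → ℤ) → ℕ, T b (C ∪ E) φ = T b C (fun a => T b E (fun c => φ (a + c))) := by
  induction C using Finset.induction_on with
  | empty => intro _ φ; simp [T_empty]
  | insert e C he ih =>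
    intro h φ
    rw [disjoint_insert_left] at h
    rw [insert_union, T_insert b (by simp [he, h.1]), T_insert b he, ih h.2, ih h.2]
    congr 2 <;> funext a <;> congr 1 <;> funext c <;> congr 1 <;> abel

omit [DecidableEq V] in
lemma T_pair (b : ι → V → ℤ) (E : Finset ι) : ∀ φ : (V → ℤ) → (V → ℤ) → ℕ,
    T b E (fun x => T b E (fun y => φ x y)) =
      ∑ A ∈ E.powerset, T b A (fun a => T b (E \ A) (fun c => φ (c + a) (c - a))) := by
  induction E using Finset.induction_on with
  | empty => intro φ; simp [T_empty]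
  | insert e E he ih =>
    intro φ
    rw [sum_powerset_insert he]
    simp only [T_insert b he, T_add, ih]
    simp only [← sum_add_distrib]
    refine sum_congr rfl fun A hA => ?_
    have h1 : e ∉ A := fun h => he (mem_powerset.1 hA h)
    have e1 : insert e E \ A = insert e (E \ A) := insert_sdiff_of_notMem E h1
    have e2 : insert e E \ insert e A = E \ A := by
      ext x; simp only [mem_sdiff, mem_insert]; grind
    rw [e1, e2, T_insert b h1]
    simp only [T_insert b (show e ∉ E \ A by simp [he]), T_add]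
    have r1 : ∀ c a : V → ℤ, c - b e + a = c + a - b e := fun _ _ => by abel
    have r2 : ∀ c a : V → ℤ, c - b e - a = c - a - b e := fun _ _ => by abel
    have r3 : ∀ c a : V → ℤ, c + b e + a = c + a + b e := fun _ _ => by abel
    have r4 : ∀ c a : V → ℤ, c + b e - a = c - a + b e := fun _ _ => by abel
    have r5 : ∀ c a : V → ℤ, c + (a - b e) = c + a - b e := fun _ _ => by abel
    have r6 : ∀ c a : V → ℤ, c - (a - b e) = c - a + b e := fun _ _ => by abel
    have r7 : ∀ c a : V → ℤ, c + (a + b e) = c + a + b e := fun _ _ => by abel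
    have r8 : ∀ c a : V → ℤ, c - (a + b e) = c - a - b e := fun _ _ => by abel
    simp only [r1, r2, r3, r4, r5, r6, r7, r8]
    ring

def Ev (b : ι → V → ℤ) (E : Finset ι) : Prop := ∀ v, 2 ∣ (∑ e ∈ E, b e) v

omit [DecidableEq V] in
lemma Ev_of_D {b : ι → V → ℤ} {A F : Finset ι} (h : D b A F = 0) : Ev b A := by
  intro v
  have h1 := congrFun h v
  simp only [D, Finset.sum_apply, Pi.zero_apply] at h1 ⊢
  rw [← sub_zero (∑ e ∈ A, b e v), ← h1, ← sum_sub_distrib]
  refine dvd_sum fun e _ => ?_
  split_ifs
  · simp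
  · exact ⟨b e v, by simp; ring⟩

omit [DecidableEq V] in
lemma Ev_sdiff {b : ι → V → ℤ} {A E : Finset ι} (h : A ⊆ E) (hE : Ev b E) (hA : Ev b A) :
    Ev b (E \ A) := by
  intro v
  have := congrFun (sum_sdiff (f := b) h) v
  have h1 := hE v
  have h2 := hA v
  simp only [Pi.add_apply] at this
  omega

lemma exists_euler : ∀ (n : ℕ) (E : Finset ι) (g : ι → V × V), E.card = n →
    Ev (fun e => bv (g e)) E → ∃ F ⊆ E, D (fun e => bv (g e)) E F = 0 := by
  intro n
  induction n with
  | zero => intro E g h _; rw [card_eq_zero.1 h]; exact ⟨∅, Subset.rfl, by simp [D]⟩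
  | succ n ih =>
    intro E g h hE
    obtain ⟨e, E1, he, rfl, h1⟩ := card_eq_succ.1 h
    by_cases c : bv (g e) = 0
    · obtain ⟨F, hF, h2⟩ := ih E1 g h1 (fun v => by
        have := hE v; rwa [sum_insert he, c, zero_add] at this)
      refine ⟨F, hF.trans (subset_insert _ _), ?_⟩
      rw [D, sum_insert he, c]; simpa [D] using h2
    · have hne : (g e).1 ≠ (g e).2 := fun h => c (by funext x; simp [bv, h])
      obtain ⟨f, hf, h3⟩ : ∃ f ∈ E1, bv (g f) (g e).2 ≠ 0 := by
        by_contra cc
        push Not at cc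
        have := hE (g e).2
        rw [sum_insert he, Pi.add_apply, Finset.sum_apply, sum_eq_zero cc] at this
        simp [bv, hne] at this
      obtain ⟨w, s, hs, hw⟩ : ∃ w, ∃ s : ℤ, (s = 1 ∨ s = -1) ∧
          bv ((g e).1, w) = bv (g e) + s • bv (g f) := by
        by_cases c1 : (g f).1 = (g e).2
        · exact ⟨(g f).2, 1, Or.inl rfl, by funext x; simp [bv, c1]⟩
        · have c2 : (g f).2 = (g e).2 := by
            by_contra c2; simp [bv, c1, c2] at h3
          exact ⟨(g f).1, -1, Or.inr rfl, by funext x; simp [bv, c2]⟩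
      let g' := Function.update g f ((g e).1, w)
      have hg : ∀ x ∈ E1.erase f, g' x = g x := fun x hx =>
        Function.update_of_ne (ne_of_mem_erase hx) _ _
      have hgf : g' f = ((g e).1, w) := Function.update_self _ _ _
      obtain ⟨F, hF, h2⟩ := ih E1 g' h1 (fun v => by
        have := hE v
        rw [sum_insert he, ← add_sum_erase _ _ hf] at this
        rw [← add_sum_erase _ _ hf, sum_congr rfl (fun x hx => by rw [hg x hx]), hgf, hw]
        simp only [Pi.add_apply, Pi.smul_apply, smul_eq_mul] at this ⊢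
        rcases hs with rfl | rfl <;> omega)
      rw [D, ← add_sum_erase _ _ hf, sum_congr rfl (fun x hx => by rw [hg x hx]), hgf, hw] at h2
      have hef : e ≠ f := fun h => he (h ▸ hf)
      have key : ∀ F' : Finset ι, (∀ x ∈ E1.erase f, x ∈ F' ↔ x ∈ F) →
          D (fun e => bv (g e)) (insert e E1) F' = (if e ∈ F' then bv (g e) else - bv (g e)) +
            ((if f ∈ F' then bv (g f) else - bv (g f)) +
              ∑ x ∈ E1.erase f, if x ∈ F then bv (g x) else - bv (g x)) := by
        intro F' h
        rw [D, sum_insert he, ← add_sum_erase _ _ hf]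
        congr 2
        exact sum_congr rfl fun x hx => by simp only [h x hx]
      have hx : ∀ x ∈ E1.erase f, x ≠ e ∧ x ≠ f := fun x hx =>
        ⟨fun h => he (h ▸ mem_of_mem_erase hx), ne_of_mem_erase hx⟩
      have heF : e ∉ F := fun h => he (hF h)
      by_cases c3 : f ∈ F <;> rcases hs with rfl | rfl
      · refine ⟨insert e F, insert_subset_insert _ hF, ?_⟩
        rw [key _ (fun x h => by simp [(hx x h).1]), ← h2]
        simp [c3, add_assoc]
      · refine ⟨insert e (F.erase f), insert_subset_insert _ ((erase_subset _ _).trans hF), ?_⟩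
        rw [key _ (fun x h => by simp [(hx x h).1, (hx x h).2]), ← h2]
        simp [c3, add_assoc, hef.symm]
      · refine ⟨F, hF.trans (subset_insert _ _), ?_⟩
        rw [key _ (fun x _ => Iff.rfl), ← h2]
        simp only [c3, heF, if_false, one_smul]; abel
      · refine ⟨insert f F, (insert_subset hf hF).trans (subset_insert _ _), ?_⟩
        rw [key _ (fun x h => by simp [(hx x h).2]), ← h2]
        simp only [c3, heF, if_false, mem_insert, hef, or_self, true_or, if_true, neg_smul, one_smul]
        abel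

variable [Fintype V]

def N (b : ι → V → ℤ) (E : Finset ι) (d : V → ℤ) : ℕ := T b E (fun x => if x = d then 1 else 0)

lemma N_pos (g : ι → V × V) {E : Finset ι} (hE : Ev (fun e => bv (g e)) E) :
    1 ≤ N (fun e => bv (g e)) E 0 := by
  obtain ⟨F, hF, h⟩ := exists_euler _ E g rfl hE
  have := single_le_sum (f := fun F => if D (fun e => bv (g e)) E F = 0 then 1 else 0)
    (fun _ _ => Nat.zero_le _) (mem_powerset.2 hF)
  rw [if_pos h] at this
  exact this

omit [DecidableEq V] in
lemma N_sq (b : ι → V → ℤ) (E : Finset ι) (d : V → ℤ) :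
    N b E d * N b E d = ∑ A ∈ E.powerset, N b A 0 * N b (E \ A) d := by
  have h := T_pair b E (fun x y => (if x = d then 1 else 0) * (if y = d then 1 else 0))
  have e1 : ∀ a c : V → ℤ, ((if c + a = d then 1 else 0) * (if c - a = d then 1 else 0) : ℕ) =
      (if a = 0 then 1 else 0) * (if c = d then 1 else 0) := by
    intro a c
    by_cases h1 : a = 0
    · subst h1; by_cases h2 : c = d <;> simp [h2]
    · rw [if_neg h1, zero_mul]
      by_cases h2 : c + a = d
      · rw [if_neg (c := c - a = d), mul_zero]
        intro h3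
        apply h1
        funext v
        have a1 := congrFun h2 v
        have a2 := congrFun h3 v
        simp only [Pi.add_apply, Pi.sub_apply, Pi.zero_apply] at a1 a2 ⊢
        omega
      · simp [h2]
  simp only [e1] at h
  simpa only [N, T, ← mul_sum, ← sum_mul] using h

lemma N_le (g : ι → V × V) (d : V → ℤ) : ∀ (n : ℕ) (E : Finset ι), E.card = n →
    Ev (fun e => bv (g e)) E → N (fun e => bv (g e)) E d ≤ N (fun e => bv (g e)) E 0 := by
  intro n
  induction n using Nat.strong_induction_on with
  | _ n ih =>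
    intro E hn hE
    set b := fun e => bv (g e) with hb
    have h1 := N_sq b E d
    have h2 := N_sq b E 0
    rw [← add_sum_erase _ _ (empty_mem_powerset E)] at h1 h2
    have h0 : N b ∅ 0 = 1 := by simp [N, T_empty]
    rw [h0, sdiff_empty, one_mul] at h1 h2
    have h3 : ∑ A ∈ E.powerset.erase ∅, N b A 0 * N b (E \ A) d ≤
        ∑ A ∈ E.powerset.erase ∅, N b A 0 * N b (E \ A) 0 := by
      refine sum_le_sum fun A hA => ?_
      have hA1 := mem_powerset.1 (mem_of_mem_erase hA)
      rcases Nat.eq_zero_or_pos (N b A 0) with c | c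
      · simp [c]
      · refine Nat.mul_le_mul_left _ (ih _ ?_ _ rfl (Ev_sdiff hA1 hE ?_))
        · rw [← hn]
          exact card_lt_card (sdiff_ssubset hA1 (nonempty_iff_ne_empty.2 (ne_of_mem_erase hA)))
        · obtain ⟨F, -, hF⟩ := exists_ne_zero_of_sum_ne_zero c.ne'
          exact Ev_of_D (F := F) (by by_contra cc; simp [cc] at hF)
    have h4 := N_pos g hE
    by_contra c
    push Not at c
    nlinarith

lemma N_cut (g : ι → V × V) {E C : Finset ι} (h : C ⊆ E) (hE : Ev (fun e => bv (g e)) (E \ C)) :
    N (fun e => bv (g e)) E 0 ≤ 2 ^ C.card * N (fun e => bv (g e)) (E \ C) 0 := by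
  conv_lhs => rw [← union_sdiff_of_subset h, N, T_union _ _ _ disjoint_sdiff, T]
  rw [← card_powerset, ← smul_eq_mul]
  refine sum_le_card_nsmul _ _ _ fun F _ => ?_
  refine le_trans (le_of_eq ?_) (N_le g (- D (fun e => bv (g e)) C F) _ _ rfl hE)
  unfold N
  congr 1
  funext c
  simp only [add_eq_zero_iff_eq_neg']

end Pool.Agent.H.MP_012ca0_co
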