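import Mathlib
import Pool.Agent.H.MP_012ca0_co.A

namespace Pool.Agent.H.MP_012ca0_co
open Finset

variable {n : ℕ}

def EE (n : ℕ) : Finset (Fin n × Fin n) := univ.filter (fun e => e.1 < e.2)

def adj (F : Finset (Fin n × Fin n)) (u w : Fin n) : Prop :=
  (u < w ∧ (u, w) ∈ F) ∨ (w < u ∧ (w, u) ∉ F)

instance (F : Finset (Fin n × Fin n)) : DecidableRel (adj F) := fun _ _ => by
  unfold adj; infer_instance

lemma D_eq (F : Finset (Fin n × Fin n)) (v : Fin n) :
    D (fun e => bv (id e)) (EE n) F v =
      ∑ w, if w = v then 0 else if adj F v w then (1 : ℤ) else -1 := by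
  have h1 : D (fun e => bv (id e)) (EE n) F v =
      ∑ u, ∑ w, ((if u = v then (if u < w then (if (u, w) ∈ F then (1 : ℤ) else -1) else 0) else 0) +
        (if w = v then (if u < w then (if (u, w) ∈ F then (-1 : ℤ) else 1) else 0) else 0)) := by
    rw [D, Finset.sum_apply, EE, sum_filter, ← univ_product_univ, sum_product]
    refine sum_congr rfl fun u _ => sum_congr rfl fun w _ => ?_
    by_cases c1 : u < w
    · by_cases c2 : (u, w) ∈ F
      · simp only [c1, c2, if_true, id, bv]
        split_ifs <;> rfl
      · simp only [c1, c2, if_true, if_false, id, bv, Pi.neg_apply]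
        split_ifs <;> rfl
    · simp only [c1, if_false, ite_self, add_zero]
  rw [h1]
  simp only [sum_add_distrib]
  rw [sum_comm (f := fun u w => if u = v then _ else _)]
  simp only [sum_ite_eq', mem_univ, if_true]
  rw [← sum_add_distrib]
  refine sum_congr rfl fun w _ => ?_
  unfold adj
  rcases lt_trichotomy v w with h | h | h
  · simp [h, h.ne', not_lt.2 h.le]
  · simp [h]
  · by_cases c : (w, v) ∈ F <;> simp [h, h.ne, not_lt.2 h.le, c]

lemma D_card (F : Finset (Fin n × Fin n)) (v : Fin n) :
    D (fun e => bv (id e)) (EE n) F v = 2 * ((univ.filter (adj F v)).card : ℤ) - (n - 1) := by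
  rw [D_eq]
  have : ∀ w, (if w = v then 0 else if adj F v w then (1 : ℤ) else -1) =
      2 * (if adj F v w then 1 else 0) - 1 + (if w = v then 1 else 0) := by
    intro w
    by_cases c : w = v
    · simp [c, adj]
    · by_cases c' : adj F v w <;> simp [c, c']
  simp only [this, sum_add_distrib, sum_sub_distrib, ← mul_sum, sum_boole]
  simp [filter_eq']
  ring

lemma Ev_EE (hn : Odd n) : Ev (fun e => bv (id e)) (EE n) := by
  intro v
  have h := D_card (EE n) v
  have e : D (fun e => bv (id e)) (EE n) (EE n) = ∑ e ∈ EE n, bv (id e) :=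
    sum_congr rfl fun e he => if_pos he
  rw [← e, h]
  obtain ⟨k, hk⟩ := hn
  omega

def srt (u w : Fin n) : Fin n × Fin n := if u < w then (u, w) else (w, u)

lemma cyc (c : Equiv.Perm (Fin n)) (h1 : ∀ v, c v ≠ v) (h2 : ∀ v, c (c v) ≠ v) (hn : Odd n) :
    N (fun e => bv (id e)) (EE n) 0 ≤ 2 ^ n *
      ((EE n).powerset.filter
        (fun F => D (fun e => bv (id e)) (EE n) F = 0 ∧ ∀ v, adj F v (c v))).card := by
  let C := univ.image (fun v => srt v (c v))
  let Fc := (univ.filter (fun v => v < c v)).image (fun v => (v, c v))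
  have inj : Function.Injective (fun v => srt v (c v)) := by
    intro u v h
    have := h2 u
    simp only [srt] at h
    split_ifs at h <;> simp only [Prod.mk.injEq] at h
    · exact h.1
    · rw [h.2, ← h.1] at this; exact absurd rfl this
    · rw [h.1, ← h.2] at this; exact absurd rfl this
    · exact h.2
  have hC : C ⊆ EE n := by
    intro e he
    obtain ⟨v, -, rfl⟩ := mem_image.1 he
    simp only [EE, srt, mem_filter, mem_univ, true_and]
    split_ifs with h
    · exact h
    · exact lt_of_le_of_ne (not_lt.1 h) (h1 v)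
  have hm : ∀ v, srt v (c v) ∈ Fc ↔ v < c v := by
    intro v
    simp only [Fc, mem_image, mem_filter, mem_univ, true_and]
    constructor
    · rintro ⟨u, hu, e⟩
      have : u = v := inj (by simp only [← e]; simp [srt, hu])
      exact this ▸ hu
    · exact fun h => ⟨v, h, by simp [srt, h]⟩
  have hF : Fc ⊆ C := by
    intro e he
    obtain ⟨v, hv, rfl⟩ := mem_image.1 he
    exact mem_image.2 ⟨v, mem_univ _, by simp [srt, (mem_filter.1 hv).2]⟩
  have hD : D (fun e => bv (id e)) C Fc = 0 := by
    rw [D, sum_image (fun x _ y _ h => inj h)]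
    have : ∀ v, (if srt v (c v) ∈ Fc then bv (id (srt v (c v))) else - bv (id (srt v (c v)))) =
        bv (v, c v) := by
      intro v
      by_cases h : v < c v
      · rw [if_pos ((hm v).2 h)]; simp [srt, h]
      · rw [if_neg (fun h' => h ((hm v).1 h'))]
        funext x; simp [srt, h, bv]
    simp only [this]
    funext x
    simp only [bv, Finset.sum_apply, sum_sub_distrib, Pi.zero_apply]
    rw [Equiv.sum_comp c (fun y => if y = x then (1 : ℤ) else 0), sub_self]
  refine (N_cut id hC (Ev_sdiff hC (Ev_EE hn) (Ev_of_D hD))).trans (Nat.mul_le_mul ?_ ?_)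
  · refine Nat.pow_le_pow_right (by norm_num) (card_image_le.trans (by simp))
  · rw [N, T, sum_boole, Nat.cast_id]
    refine card_le_card_of_injOn (fun F => Fc ∪ F) ?_ ?_
    · intro F hF'
      obtain ⟨a1, a2⟩ := mem_filter.1 (mem_coe.1 hF')
      have a1 := mem_powerset.1 a1
      have nC : ∀ e ∈ C, e ∉ F := fun e he h => (mem_sdiff.1 (a1 h)).2 he
      refine mem_coe.2 (mem_filter.2 ⟨mem_powerset.2
        (union_subset (hF.trans hC) (a1.trans sdiff_subset)), ?_, fun v => ?_⟩)
      · rw [D, ← sum_sdiff hC, ← add_zero (0 : Fin n → ℤ)]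
        congr 1
        · rw [← a2]
          refine sum_congr rfl fun e he => ?_
          have : e ∉ Fc := fun h => (mem_sdiff.1 he).2 (hF h)
          simp [this]
        · rw [← hD]
          refine sum_congr rfl fun e he => ?_
          simp [nC e he]
      · have b1 := hm v
        have b2 := nC _ (mem_image.2 ⟨v, mem_univ _, rfl⟩)
        by_cases h : v < c v
        · left
          simp only [srt, h, if_true] at b1
          exact ⟨h, mem_union_left _ (b1.2 trivial)⟩
        · right
          simp only [srt, h, if_false] at b1 b2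
          exact ⟨lt_of_le_of_ne (not_lt.1 h) (h1 v), by simp [b1, b2]⟩
    · intro F h G h' e
      have a1 := mem_powerset.1 (mem_filter.1 (mem_coe.1 h)).1
      have a2 := mem_powerset.1 (mem_filter.1 (mem_coe.1 h')).1
      ext x
      have := congrArg (x ∈ ·) e
      simp only [mem_union, eq_iff_iff] at this
      have b1 : x ∈ F → x ∉ Fc := fun h h' => (mem_sdiff.1 (a1 h)).2 (hF h')
      have b2 : x ∈ G → x ∉ Fc := fun h h' => (mem_sdiff.1 (a2 h)).2 (hF h')
      tauto

lemma main (hn : Odd n) (h3 : 3 ≤ n) : ∃ F : Finset (Fin n × Fin n),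
    D (fun e => bv (id e)) (EE n) F = 0 ∧ (n - 1).factorial ≤ 2 ^ n *
      (univ.filter (fun c : Equiv.Perm (Fin n) => c.cycleType = {n} ∧ ∀ v, adj F v (c v))).card := by
  let P := (EE n).powerset.filter (fun F => D (fun e => bv (id e)) (EE n) F = 0)
  let Q : Finset (Equiv.Perm (Fin n)) := {g | g.cycleType = {n}}
  have hQ : Q.card = (n - 1).factorial := by
    rw [Equiv.Perm.card_of_cycleType_singleton (by omega) (by simp)]; simp
  have hP : N (fun e => bv (id e)) (EE n) 0 = P.card := by rw [N, T, sum_boole, Nat.cast_id]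
  have hne : P.Nonempty := card_pos.1 (hP ▸ N_pos id (Ev_EE hn))
  have key : ∑ _F ∈ P, (n - 1).factorial ≤ ∑ F ∈ P, 2 ^ n *
      (univ.filter (fun c : Equiv.Perm (Fin n) => c.cycleType = {n} ∧ ∀ v, adj F v (c v))).card := by
    have e1 : ∀ F, (univ.filter
        (fun c : Equiv.Perm (Fin n) => c.cycleType = {n} ∧ ∀ v, adj F v (c v))).card =
        ∑ c ∈ Q, if ∀ v, adj F v (c v) then 1 else 0 := by
      intro F
      rw [sum_boole, Nat.cast_id, filter_filter]
    simp only [e1, ← mul_sum]
    rw [sum_comm, mul_sum, sum_const, ← hQ, smul_eq_mul, mul_comm, ← smul_eq_mul, ← sum_const]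
    refine sum_le_sum fun c hc => ?_
    have hc' : c.cycleType = {n} := (mem_filter.1 hc).2
    have hcyc : c.IsCycle := Equiv.Perm.card_cycleType_eq_one.1 (by rw [hc']; rfl)
    have hs : c.support.card = n := by
      have := hcyc.cycleType; rw [hc'] at this; exact (Multiset.singleton_inj.1 this).symm
    have hs' : c.support = univ := eq_univ_of_card _ (by simpa using hs)
    have h1 : ∀ v, c v ≠ v := fun v => Equiv.Perm.mem_support.1 (hs' ▸ mem_univ v)
    have h2 : ∀ v, c (c v) ≠ v := by
      intro v h
      have : c ^ 2 = 1 := (hcyc.pow_eq_one_iff' (h1 v)).2 (by simpa [pow_two] using h)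
      have := orderOf_dvd_of_pow_eq_one this
      rw [hcyc.orderOf, hs] at this
      have := Nat.le_of_dvd (by norm_num) this
      omega
    rw [sum_boole, Nat.cast_id, ← hP, filter_filter]
    exact cyc c h1 h2 hn
  obtain ⟨F, hF, h⟩ := exists_le_of_sum_le hne key
  exact ⟨F, (mem_filter.1 hF).2, h⟩

end Pool.Agent.H.MP_012ca0_co
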